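import Mathlib
import Pool.Agent.H20.G.R_pool_sql_team_seeded_63374d34.N684.BK.Stm
import Pool.Agent.H20.G.R_pool_sql_team_seeded_63374d34.N392.BK.ROWS

/-!
Project BK (helper684), part CIRC: counting minimally dependent families.
-/

set_option autoImplicit false

open Finset Module MvPolynomial

namespace Pool.Agent.N392.BK.CIRC

open Pool.Agent.N684.BK Pool.Agent.N392.BK.ROWS

section

variable {F : Type} [Field F] {N j : ℕ}

/-- the relation of a circuit -/
theorem exists_rel {W : Submodule F (MvPolynomial (Fin N) F)} {A : Fin j → Fin N → F}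
    (h : Circ W A) : ∃ c : Fin j → F, (∀ i, c i ≠ 0) ∧
      ∀ w ∈ W, ∑ i, c i * eval (A i) w = 0 := by
  classical
  obtain ⟨-, h1, h2⟩ := h
  let ev : W →ₗ[F] (Fin j → F) :=
    { toFun := fun w i => eval (A i) (w : MvPolynomial (Fin N) F)
      map_add' := fun w w' => by funext i; simp
      map_smul' := fun a w => by funext i; simp [smul_eval] }
  have hr : LinearMap.range ev ≠ ⊤ := by
    intro htop
    exact h1 (LinearMap.range_eq_top.1 htop)
  obtain ⟨f, hf, hle⟩ := Submodule.exists_le_ker_of_lt_top _ (lt_top_iff_ne_top.2 hr)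
  have hfe : ∀ v : Fin j → F, f v = ∑ i, f (Pi.single i 1) * v i := by
    intro v
    conv_lhs => rw [pi_eq_sum_univ' v]
    rw [map_sum]
    refine Finset.sum_congr rfl fun i _ => ?_
    rw [map_smul, smul_eq_mul, mul_comm]
  have hz : ∀ w ∈ W, ∑ i, f (Pi.single i 1) * eval (A i) w = 0 := by
    intro w hw
    have h3 : ev ⟨w, hw⟩ ∈ LinearMap.ker f := hle (LinearMap.mem_range_self _ _)
    rw [LinearMap.mem_ker, hfe] at h3
    exact h3
  refine ⟨fun i => f (Pi.single i 1), fun i hi => ?_, hz⟩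
  obtain ⟨l₀, hl₀⟩ : ∃ l, f (Pi.single l 1) ≠ 0 := by
    by_contra hcon
    push Not at hcon
    refine hf (LinearMap.ext fun v => ?_)
    rw [hfe v]
    simp [hcon]
  have hne : l₀ ≠ i := fun h => hl₀ (h ▸ hi)
  obtain ⟨w, hw⟩ := h2 i (fun l => if l.1 = l₀ then 1 else 0)
  have h4 := hz w w.2
  rw [Finset.sum_eq_single l₀] at h4
  · have h5 := congrFun hw ⟨l₀, hne⟩
    simp only [if_true] at h5
    rw [h5, mul_one] at h4
    exact hl₀ h4
  · intro l _ hl
    by_cases hli : l = i
    · subst hli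
      simp only at hi
      rw [hi, zero_mul]
    · have h5 := congrFun hw ⟨l, hli⟩
      simp only [if_neg hl] at h5
      rw [h5, mul_zero]
  · simp

/-- the transposed matrix -/
def tr (A : Fin j → Fin N → F) : Fin N → Fin j → F := fun a i => A i a

theorem iso_of {W : Submodule F (MvPolynomial (Fin N) F)} (h1 : (1 : MvPolynomial (Fin N) F) ∈ W)
    (hX : ∀ a, (X a : MvPolynomial (Fin N) F) ∈ W)
    (hXX : ∀ a b, (X a * X b : MvPolynomial (Fin N) F) ∈ W)
    {A : Fin j → Fin N → F} {c : Fin j → F}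
    (hc : ∀ w ∈ W, ∑ i, c i * eval (A i) w = 0) : Iso c (RR (tr A)) := by
  have hle : RR (tr A) ≤ (Bf c).orthogonal (RR (tr A)) := by
    have key : ∀ u ∈ insert (1 : Fin j → F) (Set.range (tr A)),
        ∀ v ∈ insert (1 : Fin j → F) (Set.range (tr A)), Bf c u v = 0 := by
      intro u hu v hv
      rw [Bf_apply]
      rcases hu with rfl | ⟨a, rfl⟩ <;> rcases hv with rfl | ⟨b, rfl⟩
      · have := hc _ h1
        simpa using this
      · have := hc _ (hX b)
        simpa [tr] using this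
      · have := hc _ (hX a)
        simpa [tr] using this
      · have := hc _ (hXX a b)
        simpa [tr, mul_assoc] using this
    unfold RR
    rw [Submodule.span_le]
    intro v hv
    rw [SetLike.mem_coe, LinearMap.BilinForm.mem_orthogonal_iff]
    intro u hu
    show Bf c u v = 0
    have h3 : Submodule.span F (insert (1 : Fin j → F) (Set.range (tr A))) ≤
        LinearMap.ker ((Bf c).flip v) := by
      rw [Submodule.span_le]
      intro u hu
      exact key u hu v hv
    exact h3 hu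
  intro u hu v hv
  have := hle hv
  rw [LinearMap.BilinForm.mem_orthogonal_iff] at this
  exact this u hu

theorem two_mul_finrank {c : Fin j → F} (hc : ∀ i, c i ≠ 0) {R : Submodule F (Fin j → F)}
    (h : Iso c R) : 2 * finrank F R ≤ j := by
  have hle : R ≤ (Bf c).orthogonal R := by
    intro v hv
    rw [LinearMap.BilinForm.mem_orthogonal_iff]
    intro u hu
    exact h u hu v hv
  have h1 := Submodule.finrank_mono hle
  rw [LinearMap.BilinForm.finrank_orthogonal (Bf_nondeg hc), finrank_fin_fun] at h1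
  have h2 : finrank F R ≤ finrank F (Fin j → F) := Submodule.finrank_le _
  rw [finrank_fin_fun] at h2
  omega

theorem two_le_finrank {W : Submodule F (MvPolynomial (Fin N) F)}
    (h1 : (1 : MvPolynomial (Fin N) F) ∈ W) {A : Fin j → Fin N → F} (h : Circ W A) :
    2 ≤ finrank F (RR (tr A)) := by
  obtain ⟨hinj, hni, -⟩ := h
  have hj : 2 ≤ j := by
    by_contra hcon
    apply hni
    rcases (by omega : j = 0 ∨ j = 1) with rfl | rfl
    · intro y
      exact ⟨0, funext fun i => i.elim0⟩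
    · intro y
      refine ⟨⟨y 0 • 1, W.smul_mem _ h1⟩, funext fun i => ?_⟩
      rw [Subsingleton.elim i 0]
      simp [smul_eval]
  by_contra hcon
  have hone : (1 : Fin j → F) ∈ RR (tr A) := Submodule.subset_span (Set.mem_insert _ _)
  have hne : (1 : Fin j → F) ≠ 0 := fun h => one_ne_zero (congrFun h ⟨0, by omega⟩)
  have hspan : Submodule.span F {(1 : Fin j → F)} = RR (tr A) := by
    refine Submodule.eq_of_le_of_finrank_le
      ((Submodule.span_singleton_le_iff_mem _ _).2 hone) ?_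
    rw [finrank_span_singleton hne]
    omega
  have heq : A ⟨0, by omega⟩ = A ⟨1, by omega⟩ := by
    funext a
    have ha : tr A a ∈ RR (tr A) := Submodule.subset_span (Set.mem_insert_of_mem _ ⟨a, rfl⟩)
    rw [← hspan, Submodule.mem_span_singleton] at ha
    obtain ⟨x, hx⟩ := ha
    have e0 := congrFun hx ⟨0, by omega⟩
    have e1 := congrFun hx ⟨1, by omega⟩
    simp only [tr, Pi.smul_apply, Pi.one_apply, smul_eq_mul, mul_one] at e0 e1
    rw [← e0, ← e1]
  have := hinj heq
  simp at this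

end

/-- the inequality of exponents -/
theorem expo (s e k j r : ℕ) (h1 : 1 ≤ r) (h2 : 2 * (r + 1) ≤ j) (h3 : j ≤ s)
    (he : 5 * s ≤ 4 * e) (hk : 6 ≤ k) :
    j + (r * j + (r + 1) * (s + e + k)) + 2 ≤
      (j - 1) * (e + k) + s + (r * (r + 1) / 2 + r * (r + 1)) := by
  obtain ⟨d, rfl⟩ := Nat.exists_eq_add_of_le h2
  obtain ⟨T, hT⟩ : ∃ T, T = r * (r + 1) / 2 := ⟨_, rfl⟩
  have hT2 : 2 * T = r * (r + 1) := by
    rw [hT]; exact Nat.mul_div_cancel' (Nat.even_mul_succ_self r).two_dvd
  rw [← hT]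
  have hj : 2 * (r + 1) + d - 1 = 2 * r + 1 + d := by omega
  rw [hj]
  obtain ⟨m, rfl⟩ := Nat.exists_eq_add_of_le h3
  obtain ⟨E, hE⟩ : ∃ E, E = e + k := ⟨_, rfl⟩
  have hEs : 5 * (2 * (r + 1) + d + m) + 24 ≤ 4 * E := by omega
  have e1 : 2 * (r + 1) + d + m + e + k = 2 * (r + 1) + d + m + E := by omega
  rw [e1, ← hE]
  obtain ⟨x, hx⟩ := Nat.exists_eq_add_of_le hEs
  obtain ⟨u, rfl⟩ := Nat.exists_eq_add_of_le h1
  nlinarith [Nat.zero_le (u * m), Nat.zero_le (u * d), Nat.zero_le (d * m), Nat.zero_le (u * x),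
    Nat.zero_le (d * x), Nat.zero_le (u * u), Nat.zero_le (d * d), hT2, hx]

/-- **Part CIRC.** -/
theorem CIRC (hROWS : S_ROWS) : S_CIRC := by
  intro s e k j hs he hk hj
  refine ⟨s * 2 ^ (s + e + k), fun F _ _ W h1 hX hXX => ?_⟩
  classical
  set q := Fintype.card F with hq
  have hq1 : 1 ≤ q := Fintype.card_pos
  -- the individual counts
  let cnt : (Fin j → F) → ℕ → ℕ := fun c r => (ROWS.S c (s + e + k) (r + 1)).card
  have hcnt : ∀ c : Fin j → F, (∀ i, c i ≠ 0) → ∀ r, 1 ≤ r → 2 * (r + 1) ≤ j →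
      cnt c r * q ^ 2 * q ^ j ≤ 2 ^ (s + e + k) * q ^ ((j - 1) * (e + k) + s) := by
    intro c hc r hr1 hr2
    have h2 := hROWS F (s + e + k) j r c hc
    have e0 : Nat.card {A : Fin (s + e + k) → Fin j → F //
        (∀ u ∈ Submodule.span F (insert 1 (Set.range A)),
          ∀ v ∈ Submodule.span F (insert 1 (Set.range A)), ∑ i, c i * u i * v i = 0) ∧
        Module.finrank F (Submodule.span F (insert 1 (Set.range A))) = r + 1} = cnt c r := by
      rw [Nat.card_eq_fintype_card, Fintype.card_subtype]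
      show _ = (ROWS.S c (s + e + k) (r + 1)).card
      rw [ROWS.S]
      congr 1
      ext A
      rw [mem_filter, mem_filter]
      rfl
    rw [e0] at h2
    have h3 := expo s e k j r hr1 hr2 hj he hk
    have hpos : 0 < q ^ (r * (r + 1) / 2 + r * (r + 1)) := pow_pos hq1 _
    refine Nat.le_of_mul_le_mul_right ?_ hpos
    calc cnt c r * q ^ 2 * q ^ j * q ^ (r * (r + 1) / 2 + r * (r + 1)) =
          cnt c r * q ^ (r * (r + 1) / 2 + r * (r + 1)) * q ^ (j + 2) := by
          rw [pow_add q j 2]; ring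
      _ ≤ 2 ^ (s + e + k) * q ^ (r * j + (r + 1) * (s + e + k)) * q ^ (j + 2) := Nat.mul_le_mul_right _ h2
      _ = 2 ^ (s + e + k) * q ^ (j + (r * j + (r + 1) * (s + e + k)) + 2) := by
          rw [mul_assoc, ← pow_add]; congr 2; ring
      _ ≤ 2 ^ (s + e + k) * q ^ ((j - 1) * (e + k) + s + (r * (r + 1) / 2 + r * (r + 1))) :=
          Nat.mul_le_mul_left _ (Nat.pow_le_pow_right hq1 h3)
      _ = 2 ^ (s + e + k) * q ^ ((j - 1) * (e + k) + s) * q ^ (r * (r + 1) / 2 + r * (r + 1)) := by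
          rw [mul_assoc, ← pow_add]
  -- the union bound
  let I : Finset ((Fin j → F) × ℕ) :=
    (univ.filter fun c : Fin j → F => ∀ i, c i ≠ 0) ×ˢ
      ((Finset.range s).filter fun r => 1 ≤ r ∧ 2 * (r + 1) ≤ j)
  have hub : Nat.card {A : Fin j → Fin (s + e + k) → F // Circ W A} ≤ ∑ z ∈ I, cnt z.1 z.2 := by
    rw [Nat.card_eq_fintype_card, Fintype.card_subtype]
    refine (Finset.card_le_card_of_injOn (t := I.biUnion fun z => ROWS.S z.1 (s + e + k) (z.2 + 1)) tr
      ?_ ?_).trans Finset.card_biUnion_le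
    · intro A hA
      rw [mem_coe, mem_filter] at hA
      have hA := hA.2
      obtain ⟨c, hc, hrel⟩ := exists_rel hA
      have hiso := iso_of h1 hX hXX hrel
      have h2 := two_le_finrank h1 hA
      have h3 := two_mul_finrank hc hiso
      rw [mem_coe, mem_biUnion]
      refine ⟨(c, finrank F (RR (tr A)) - 1), ?_, ?_⟩
      · rw [mem_product, mem_filter, mem_filter, mem_range]
        refine ⟨⟨mem_univ _, hc⟩, ?_, ?_, ?_⟩ <;> simp only <;> omega
      · rw [ROWS.S, mem_filter]
        refine ⟨mem_univ _, hiso, ?_⟩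
        simp only
        omega
    · intro A _ B _ h
      funext i a
      exact congrFun (congrFun h a) i
  have hI : I.card ≤ q ^ j * s := by
    rw [Finset.card_product]
    refine Nat.mul_le_mul ?_ ?_
    · refine (Finset.card_le_univ _).trans ?_
      rw [Fintype.card_fun, Fintype.card_fin]
    · refine (Finset.card_filter_le _ _).trans ?_
      rw [Finset.card_range]
  have hposj : 0 < q ^ j := pow_pos hq1 _
  refine Nat.le_of_mul_le_mul_right ?_ hposj
  calc Nat.card {A : Fin j → Fin (s + e + k) → F // Circ W A} * q ^ 2 * q ^ j ≤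
        (∑ z ∈ I, cnt z.1 z.2) * q ^ 2 * q ^ j :=
        Nat.mul_le_mul_right _ (Nat.mul_le_mul_right _ hub)
    _ = ∑ z ∈ I, cnt z.1 z.2 * q ^ 2 * q ^ j := by
        rw [Finset.sum_mul, Finset.sum_mul]
    _ ≤ ∑ _z ∈ I, 2 ^ (s + e + k) * q ^ ((j - 1) * (e + k) + s) := by
        refine Finset.sum_le_sum fun z hz => ?_
        rw [mem_product, mem_filter, mem_filter] at hz
        exact hcnt z.1 hz.1.2 z.2 hz.2.2.1 hz.2.2.2
    _ = I.card * (2 ^ (s + e + k) * q ^ ((j - 1) * (e + k) + s)) := by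
        rw [Finset.sum_const, smul_eq_mul]
    _ ≤ q ^ j * s * (2 ^ (s + e + k) * q ^ ((j - 1) * (e + k) + s)) := Nat.mul_le_mul_right _ hI
    _ = s * 2 ^ (s + e + k) * q ^ ((j - 1) * (e + k) + s) * q ^ j := by ring

end Pool.Agent.N392.BK.CIRC
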